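import Pool.Agent.Y469.BL.Prod

set_option autoImplicit false

/-!
Distances and completeness of the Riemannian product of a metric on `ℝᵐ` with the flat `ℝᵏ`.
-/

namespace Pool.Agent.Y469.BL

open Pool.Agent.W555.RG
open scoped ContDiff Topology
open Set

variable {m : ℕ} (k : ℕ)

/-- the speed of `C¹` curves is continuous -/
def SpeedCont {V : Type} [NormedAddCommGroup V] [NormedSpace ℝ V] (g : RMetric V) : Prop :=
  ∀ γ : ℝ → V, ContDiff ℝ 1 γ → Continuous fun s => g.form (γ s) (deriv γ s) (deriv γ s)

theorem deriv_clm {V W : Type} [NormedAddCommGroup V] [NormedSpace ℝ V] [NormedAddCommGroup W]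
    [NormedSpace ℝ W] (L : V →L[ℝ] W) {γ : ℝ → V} (hγ : ContDiff ℝ 1 γ) (s : ℝ) :
    deriv (fun t => L (γ t)) s = L (deriv γ s) :=
  (L.hasFDerivAt.comp_hasDerivAt s
    ((hγ.differentiable (by norm_num)).differentiableAt (x := s)).hasDerivAt).deriv

theorem dist_nonneg {V : Type} [NormedAddCommGroup V] [NormedSpace ℝ V] (h : RMetric V) (x y : V) :
    0 ≤ h.dist x y := by
  apply Real.sInf_nonneg
  rintro L ⟨γ, -, -, -, rfl⟩
  exact h.length_nonneg γ

theorem dist_le {V : Type} [NormedAddCommGroup V] [NormedSpace ℝ V] (h : RMetric V) {γ : ℝ → V}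
    (hγ : ContDiff ℝ 1 γ) : h.dist (γ 0) (γ 1) ≤ h.length γ := by
  apply csInf_le
  · exact ⟨0, by rintro L ⟨γ, -, -, -, rfl⟩; exact h.length_nonneg γ⟩
  · exact ⟨γ, hγ, rfl, rfl, rfl⟩

theorem le_dist {V : Type} [NormedAddCommGroup V] [NormedSpace ℝ V] (h : RMetric V) {x y : V}
    {c : ℝ} (H : ∀ γ : ℝ → V, ContDiff ℝ 1 γ → γ 0 = x → γ 1 = y → c ≤ h.length γ) :
    c ≤ h.dist x y := by
  apply le_csInf
  · exact ⟨_, fun s => x + s • (y - x), by fun_prop, by simp, by simp, rfl⟩
  · rintro L ⟨γ, hγ, h0, h1, rfl⟩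
    exact H γ hγ h0 h1

theorem speedCont_prod (g : RMetric (Fin m → ℝ)) (hg : SpeedCont g) : SpeedCont (prodM k g) := by
  intro γ hγ
  have h1 : ContDiff ℝ 1 (fun t => pr k (γ t)) := (pr k).contDiff.comp hγ
  have h2 := hg _ h1
  have hd : Continuous (deriv γ) := hγ.continuous_deriv le_rfl
  have e : (fun s => (prodM k g).form (γ s) (deriv γ s) (deriv γ s)) = fun s =>
      g.form (pr k (γ s)) (deriv (fun t => pr k (γ t)) s) (deriv (fun t => pr k (γ t)) s) +
        ∑ j, qr (m := m) k (deriv γ s) j * qr (m := m) k (deriv γ s) j := by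
    funext s
    rw [prodM_form, deriv_clm (pr k) hγ]
  rw [e]
  refine h2.add ?_
  refine continuous_finsetSum _ fun j _ => ?_
  have h3 : Continuous fun s => qr (m := m) k (deriv γ s) j :=
    (continuous_apply j).comp ((qr k).continuous.comp hd)
  exact h3.mul h3

theorem dist_pr (g : RMetric (Fin m → ℝ)) (hg : SpeedCont g) (x y : Fin (m + k) → ℝ) :
    g.dist (pr k x) (pr k y) ≤ (prodM k g).dist x y := by
  apply le_dist
  rintro γ hγ rfl rfl
  have h1 : ContDiff ℝ 1 (fun t => pr k (γ t)) := (pr k).contDiff.comp hγ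
  refine (dist_le g h1).trans ?_
  unfold RMetric.length
  apply intervalIntegral.integral_mono_on (by norm_num)
  · exact (Real.continuous_sqrt.comp (hg _ h1)).intervalIntegrable _ _
  · exact (Real.continuous_sqrt.comp (speedCont_prod k g hg γ hγ)).intervalIntegrable _ _
  · intro s _
    apply Real.sqrt_le_sqrt
    rw [prodM_form, deriv_clm (pr k) hγ]
    have : 0 ≤ ∑ j, qr (m := m) k (deriv γ s) j * qr (m := m) k (deriv γ s) j :=
      Finset.sum_nonneg fun j _ => mul_self_nonneg _
    linarith

theorem form_nonneg (g : RMetric (Fin m → ℝ)) (x u : Fin m → ℝ) : 0 ≤ g.form x u u := by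
  by_cases h : u = 0
  · rw [h]; simp
  · exact (g.pos' x u h).le

theorem dist_qr (g : RMetric (Fin m → ℝ)) (hg : SpeedCont g) (x y : Fin (m + k) → ℝ) (j : Fin k) :
    |qr (m := m) k x j - qr (m := m) k y j| ≤ (prodM k g).dist x y := by
  apply le_dist
  rintro γ hγ rfl rfl
  have h1 : ContDiff ℝ 1 (fun t => qr (m := m) k (γ t) j) :=
    ((ContinuousLinearMap.proj (R := ℝ) (φ := fun _ : Fin k => ℝ) j).contDiff.comp
      ((qr k).contDiff.comp hγ))
  have hd : ∀ s, deriv (fun t => qr (m := m) k (γ t) j) s = qr (m := m) k (deriv γ s) j :=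
    fun s => deriv_clm ((ContinuousLinearMap.proj (R := ℝ) (φ := fun _ : Fin k => ℝ) j).comp
      (qr (m := m) k)) hγ s
  have hc : Continuous fun s => qr (m := m) k (deriv γ s) j := by
    have := h1.continuous_deriv le_rfl
    have e : (deriv fun t => qr (m := m) k (γ t) j) = fun s => qr (m := m) k (deriv γ s) j :=
      funext hd
    rwa [e] at this
  have hint : ∫ s in (0 : ℝ)..1, qr (m := m) k (deriv γ s) j =
      qr (m := m) k (γ 1) j - qr (m := m) k (γ 0) j := by
    have := intervalIntegral.integral_deriv_eq_sub (a := 0) (b := 1)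
      (f := fun t => qr (m := m) k (γ t) j)
      (fun s _ => (h1.differentiable (by norm_num)).differentiableAt)
      ((h1.continuous_deriv le_rfl).intervalIntegrable _ _)
    rw [← this]
    exact intervalIntegral.integral_congr fun s _ => (hd s).symm
  rw [abs_sub_comm, ← hint]
  refine (intervalIntegral.abs_integral_le_integral_abs (by norm_num)).trans ?_
  unfold RMetric.length
  apply intervalIntegral.integral_mono_on (by norm_num)
  · exact hc.abs.intervalIntegrable _ _
  · exact (Real.continuous_sqrt.comp (speedCont_prod k g hg γ hγ)).intervalIntegrable _ _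
  · intro s _
    apply Real.abs_le_sqrt
    rw [prodM_form]
    have h2 := form_nonneg g (pr k (γ s)) (pr k (deriv γ s))
    have h3 : qr (m := m) k (deriv γ s) j * qr (m := m) k (deriv γ s) j ≤
        ∑ j, qr (m := m) k (deriv γ s) j * qr (m := m) k (deriv γ s) j :=
      Finset.single_le_sum (f := fun j => qr (m := m) k (deriv γ s) j *
        qr (m := m) k (deriv γ s) j) (fun j _ => mul_self_nonneg _) (Finset.mem_univ j)
    rw [pow_two]
    linarith

/-- the Euclidean distance of the flat components -/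
noncomputable def eu (x y : Fin (m + k) → ℝ) : ℝ :=
  Real.sqrt (∑ j, (qr (m := m) k y j - qr (m := m) k x j) * (qr (m := m) k y j - qr (m := m) k x j))

theorem dist_le_add (g : RMetric (Fin m → ℝ)) (hg : SpeedCont g) (x y : Fin (m + k) → ℝ) :
    (prodM k g).dist x y ≤ g.dist (pr k x) (pr k y) + eu k x y := by
  suffices h : (prodM k g).dist x y - eu k x y ≤ g.dist (pr k x) (pr k y) by linarith
  apply le_dist
  intro γ hγ h0 h1
  set δ : ℝ → (Fin (m + k) → ℝ) := fun t => il k (γ t) + ir k (qr k x + t • (qr k y - qr k x))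
    with hδ
  have hδc : ContDiff ℝ 1 δ := by
    refine ((il k).contDiff.comp hγ).add ((ir k).contDiff.comp ?_)
    fun_prop
  have hd : ∀ s, deriv δ s = il k (deriv γ s) + ir k (qr k y - qr k x) := by
    intro s
    have a1 : HasDerivAt γ (deriv γ s) s :=
      ((hγ.differentiable (by norm_num)).differentiableAt (x := s)).hasDerivAt
    have a2 : HasDerivAt (fun t : ℝ => qr (m := m) k x + t • (qr (m := m) k y - qr k x))
        (qr k y - qr k x) s := by
      have := ((hasDerivAt_id s).smul_const (qr (m := m) k y - qr k x)).const_add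
        (qr (m := m) k x)
      simpa using this
    exact (((il k).hasFDerivAt.comp_hasDerivAt s a1).add
      ((ir (m := m) k).hasFDerivAt.comp_hasDerivAt s a2)).deriv
  have e0 : δ 0 = x := by
    rw [hδ]
    simp only [h0, zero_smul, add_zero]
    exact il_add_ir k x
  have e1 : δ 1 = y := by
    rw [hδ]
    simp only [h1, one_smul]
    rw [add_sub_cancel]
    exact il_add_ir k y
  have hlen : (prodM k g).length δ ≤ g.length γ + eu k x y := by
    unfold RMetric.length
    have e2 : ∫ _ in (0 : ℝ)..1, eu k x y = eu k x y := by simp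
    have hc1 : Continuous fun s => Real.sqrt (g.form (γ s) (deriv γ s) (deriv γ s)) :=
      Real.continuous_sqrt.comp (hg γ hγ)
    rw [← e2, ← intervalIntegral.integral_add (hc1.intervalIntegrable _ _)
      (continuous_const.intervalIntegrable _ _)]
    apply intervalIntegral.integral_mono_on (by norm_num)
    · exact (Real.continuous_sqrt.comp (speedCont_prod k g hg δ hδc)).intervalIntegrable _ _
    · exact (hc1.add continuous_const).intervalIntegrable _ _
    · intro s _
      have e3 : (prodM k g).form (δ s) (deriv δ s) (deriv δ s) =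
          g.form (γ s) (deriv γ s) (deriv γ s) +
            ∑ j, (qr (m := m) k y j - qr (m := m) k x j) *
              (qr (m := m) k y j - qr (m := m) k x j) := by
        rw [prodM_form, hd]
        simp only [hδ, map_add, pr_il, pr_ir, qr_il, qr_ir, add_zero, zero_add, Pi.sub_apply]
      rw [e3]
      have n1 := form_nonneg g (γ s) (deriv γ s)
      have n2 : 0 ≤ ∑ j, (qr (m := m) k y j - qr (m := m) k x j) *
              (qr (m := m) k y j - qr (m := m) k x j) :=
        Finset.sum_nonneg fun j _ => mul_self_nonneg _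
      unfold eu
      rw [Real.sqrt_le_left (add_nonneg (Real.sqrt_nonneg _) (Real.sqrt_nonneg _))]
      have s1 := Real.sq_sqrt n1
      have s2 := Real.sq_sqrt n2
      nlinarith [mul_nonneg (Real.sqrt_nonneg (g.form (γ s) (deriv γ s) (deriv γ s)))
        (Real.sqrt_nonneg (∑ j, (qr (m := m) k y j - qr (m := m) k x j) *
              (qr (m := m) k y j - qr (m := m) k x j)))]
  have h5 := dist_le (prodM k g) hδc
  rw [e0, e1] at h5
  linarith

/-- The first factor is isometrically embedded. -/
theorem dist_il (g : RMetric (Fin m → ℝ)) (hg : SpeedCont g) (x y : Fin m → ℝ) :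
    (prodM k g).dist (il k x) (il k y) = g.dist x y := by
  apply le_antisymm
  · have h := dist_le_add k g hg (il k x) (il k y)
    have e : eu k (il k x) (il k y) = 0 := by
      unfold eu
      simp
    rw [e, pr_il, pr_il, add_zero] at h
    exact h
  · have h := dist_pr k g hg (il k x) (il k y)
    rwa [pr_il, pr_il] at h

theorem complete_prod (g : RMetric (Fin m → ℝ)) (hg : SpeedCont g) (hc : g.IsComplete) :
    (prodM k g).IsComplete := by
  intro s hs
  obtain ⟨q1, hq1⟩ := hc (fun n => pr k (s n)) (fun ε hε => by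
    obtain ⟨N, hN⟩ := hs ε hε
    exact ⟨N, fun a b ha hb => (dist_pr k g hg _ _).trans_lt (hN a b ha hb)⟩)
  have hcau : CauchySeq (fun n => qr (m := m) k (s n)) := by
    rw [Metric.cauchySeq_iff]
    intro ε hε
    obtain ⟨N, hN⟩ := hs (ε / 2) (by positivity)
    refine ⟨N, fun a ha b hb => ?_⟩
    refine lt_of_le_of_lt ((dist_pi_le_iff (by positivity : (0 : ℝ) ≤ ε / 2)).2 fun j => ?_)
      (by linarith : ε / 2 < ε)
    rw [Real.dist_eq]
    exact (dist_qr k g hg _ _ j).trans (hN a b ha hb).le
  obtain ⟨q2, hq2⟩ := cauchySeq_tendsto_of_complete hcau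
  refine ⟨il k q1 + ir k q2, ?_⟩
  have hle : ∀ n, (prodM k g).dist (s n) (il k q1 + ir k q2) ≤
      g.dist (pr k (s n)) q1 + Real.sqrt (∑ j, (q2 j - qr (m := m) k (s n) j) *
        (q2 j - qr (m := m) k (s n) j)) := by
    intro n
    have h := dist_le_add k g hg (s n) (il k q1 + ir k q2)
    unfold eu at h
    simpa only [map_add, pr_il, pr_ir, qr_il, qr_ir, add_zero, zero_add] using h
  have hlim2 : Filter.Tendsto (fun n => Real.sqrt (∑ j, (q2 j - qr (m := m) k (s n) j) *
        (q2 j - qr (m := m) k (s n) j))) Filter.atTop (𝓝 0) := by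
    have h1 : Filter.Tendsto (fun n => ∑ j, (q2 j - qr (m := m) k (s n) j) *
        (q2 j - qr (m := m) k (s n) j)) Filter.atTop (𝓝 (∑ j : Fin k, (q2 j - q2 j) *
          (q2 j - q2 j))) := by
      refine tendsto_finsetSum _ fun j _ => ?_
      have h2 : Filter.Tendsto (fun n => qr (m := m) k (s n) j) Filter.atTop (𝓝 (q2 j)) :=
        (tendsto_pi_nhds.1 hq2) j
      exact (tendsto_const_nhds.sub h2).mul (tendsto_const_nhds.sub h2)
    have h3 := (Real.continuous_sqrt.tendsto _).comp h1
    simp only [sub_self, mul_zero, Finset.sum_const_zero, Real.sqrt_zero] at h3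
    exact h3
  have hlim := hq1.add hlim2
  rw [add_zero] at hlim
  exact squeeze_zero (fun n => dist_nonneg _ _ _) hle hlim

end Pool.Agent.Y469.BL
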