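import Pool.Agent.TH597.BL.Defs

set_option autoImplicit false

/-!
The Riemannian product of a metric on `ℝᵐ` with the flat `ℝᵏ`: Ricci curvature, distances and
completeness.
-/

namespace Pool.Agent.Y469.BL

open Pool.Agent.W555.RG
open Pool.Agent.TH597.BL (Ric)
open scoped ContDiff Topology

variable {m : ℕ} (k : ℕ)

/-- the first `m` coordinates -/
noncomputable def pr : (Fin (m + k) → ℝ) →L[ℝ] (Fin m → ℝ) :=
  ContinuousLinearMap.pi fun i => ContinuousLinearMap.proj (Fin.castAdd k i)

/-- the last `k` coordinates -/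
noncomputable def qr : (Fin (m + k) → ℝ) →L[ℝ] (Fin k → ℝ) :=
  ContinuousLinearMap.pi fun j => ContinuousLinearMap.proj (Fin.natAdd m j)

/-- inclusion of the first factor -/
noncomputable def il : (Fin m → ℝ) →L[ℝ] (Fin (m + k) → ℝ) :=
  ContinuousLinearMap.pi fun i => Fin.addCases (fun a => ContinuousLinearMap.proj a) (fun _ => 0) i

/-- inclusion of the second factor -/
noncomputable def ir : (Fin k → ℝ) →L[ℝ] (Fin (m + k) → ℝ) :=
  ContinuousLinearMap.pi fun i => Fin.addCases (fun _ => 0) (fun a => ContinuousLinearMap.proj a) i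

@[simp] theorem pr_apply (x : Fin (m + k) → ℝ) (i : Fin m) : pr k x i = x (Fin.castAdd k i) := rfl
@[simp] theorem qr_apply (x : Fin (m + k) → ℝ) (j : Fin k) :
    qr (m := m) k x j = x (Fin.natAdd m j) := rfl

@[simp] theorem il_cast (z : Fin m → ℝ) (i : Fin m) : il k z (Fin.castAdd k i) = z i := by
  simp [il]

@[simp] theorem il_nat (z : Fin m → ℝ) (j : Fin k) : il k z (Fin.natAdd m j) = 0 := by
  simp [il]

@[simp] theorem ir_cast (z : Fin k → ℝ) (i : Fin m) : ir k z (Fin.castAdd k i) = 0 := by
  simp [ir]

@[simp] theorem ir_nat (z : Fin k → ℝ) (j : Fin k) : ir (m := m) k z (Fin.natAdd m j) = z j := by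
  simp [ir]

@[simp] theorem pr_il (z : Fin m → ℝ) : pr k (il k z) = z := by
  funext i; simp

@[simp] theorem qr_il (z : Fin m → ℝ) : qr (m := m) k (il k z) = 0 := by
  funext i; simp

@[simp] theorem pr_ir (z : Fin k → ℝ) : pr (m := m) k (ir k z) = 0 := by
  funext i; simp

@[simp] theorem qr_ir (z : Fin k → ℝ) : qr (m := m) k (ir k z) = z := by
  funext i; simp

theorem il_add_ir (x : Fin (m + k) → ℝ) : il k (pr k x) + ir k (qr k x) = x := by
  funext i
  refine Fin.addCases (fun a => ?_) (fun b => ?_) i <;> simp

/-- the product metric with the flat `ℝᵏ` -/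
noncomputable def prodM (g : RMetric (Fin m → ℝ)) : RMetric (Fin (m + k) → ℝ) where
  form x := LinearMap.mk₂ ℝ (fun u v => g.form (pr k x) (pr k u) (pr k v) +
      ∑ j, qr (m := m) k u j * qr (m := m) k v j)
    (by
      intro u u' v
      simp only [map_add, LinearMap.add_apply, Pi.add_apply, add_mul, Finset.sum_add_distrib]
      ring)
    (by
      intro c u v
      simp only [map_smul, LinearMap.smul_apply, Pi.smul_apply, smul_eq_mul, mul_assoc, mul_add,
        Finset.mul_sum])
    (by
      intro u v v'
      simp only [map_add, Pi.add_apply, mul_add, Finset.sum_add_distrib]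
      ring)
    (by
      intro c u v
      simp only [map_smul, Pi.smul_apply, smul_eq_mul, mul_add, Finset.mul_sum]
      congr 1
      exact Finset.sum_congr rfl fun j _ => by ring)
  symm' := by
    intro x u v
    simp only [LinearMap.mk₂_apply]
    rw [g.symm']
    congr 1
    exact Finset.sum_congr rfl fun j _ => mul_comm _ _
  pos' := by
    intro x u hu
    simp only [LinearMap.mk₂_apply]
    have h1 : 0 ≤ ∑ j, qr (m := m) k u j * qr (m := m) k u j :=
      Finset.sum_nonneg fun j _ => mul_self_nonneg _
    by_cases hp : pr k u = 0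
    · have hq : qr (m := m) k u ≠ 0 := by
        intro h0
        apply hu
        rw [← il_add_ir k u, hp, h0]
        simp
      rw [hp]
      simp only [map_zero, zero_add]
      obtain ⟨j, hj⟩ := Function.ne_iff.1 hq
      refine lt_of_lt_of_le (mul_self_pos.2 hj) ?_
      exact Finset.single_le_sum (f := fun j => qr (m := m) k u j * qr (m := m) k u j)
        (fun j _ => mul_self_nonneg _) (Finset.mem_univ j)
    · have := g.pos' (pr k x) _ hp
      linarith
  smooth' := by
    intro u v
    simp only [LinearMap.mk₂_apply]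
    exact ((g.smooth' (pr k u) (pr k v)).comp (pr k).contDiff).add contDiff_const

theorem prodM_form (g : RMetric (Fin m → ℝ)) (x u v : Fin (m + k) → ℝ) :
    (prodM k g).form x u v = g.form (pr k x) (pr k u) (pr k v) +
      ∑ j, qr (m := m) k u j * qr (m := m) k v j := rfl

/-- the Koszul formula -/
theorem koszul (g : RMetric (Fin m → ℝ)) (x u v w : Fin m → ℝ) :
    2 * g.form x (g.Gam x u v) w =
      fderiv ℝ (fun y => g.form y v w) x u + fderiv ℝ (fun y => g.form y u w) x v
        - fderiv ℝ (fun y => g.form y u v) x w := by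
  have hd : ∀ a b : Fin m → ℝ, DifferentiableAt ℝ (fun y => g.form y a b) x := fun a b =>
    (g.smooth' a b).contDiffAt.differentiableAt (by norm_num)
  let ℓ : (Fin m → ℝ) →ₗ[ℝ] ℝ :=
    { toFun := fun w => (fderiv ℝ (fun y => g.form y v w) x u +
        fderiv ℝ (fun y => g.form y u w) x v - fderiv ℝ (fun y => g.form y u v) x w) / 2
      map_add' := by
        intro a b
        have e1 : (fun y => g.form y v (a + b)) = fun y => g.form y v a + g.form y v b := by
          funext y; rw [map_add]
        have e2 : (fun y => g.form y u (a + b)) = fun y => g.form y u a + g.form y u b := by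
          funext y; rw [map_add]
        rw [e1, e2, fderiv_fun_add (hd v a) (hd v b), fderiv_fun_add (hd u a) (hd u b)]
        simp only [_root_.add_apply, map_add]
        ring
      map_smul' := by
        intro c a
        have e1 : (fun y => g.form y v (c • a)) = fun y => c • g.form y v a := by
          funext y; rw [map_smul]
        have e2 : (fun y => g.form y u (c • a)) = fun y => c • g.form y u a := by
          funext y; rw [map_smul]
        rw [e1, e2, fderiv_fun_const_smul (hd v a), fderiv_fun_const_smul (hd u a)]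
        simp only [_root_.smul_apply, map_smul, smul_eq_mul, RingHom.id_apply]
        ring }
  have hinj : Function.Injective (g.form x) := by
    rw [injective_iff_map_eq_zero]
    intro a ha
    by_contra hne
    have := g.pos' x a hne
    rw [ha] at this
    simp at this
  have hsurj : Function.Surjective (g.form x) :=
    (LinearMap.injective_iff_surjective_of_finrank_eq_finrank
      (Subspace.dual_finrank_eq (K := ℝ) (V := Fin m → ℝ)).symm).1 hinj
  obtain ⟨z, hz⟩ := hsurj ℓ
  have hz2 : ∀ w, 2 * g.form x z w =
      fderiv ℝ (fun y => g.form y v w) x u + fderiv ℝ (fun y => g.form y u w) x v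
        - fderiv ℝ (fun y => g.form y u v) x w := by
    intro w
    rw [hz]
    show 2 * ((fderiv ℝ (fun y => g.form y v w) x u + fderiv ℝ (fun y => g.form y u w) x v
        - fderiv ℝ (fun y => g.form y u v) x w) / 2) = _
    ring
  rw [g.Gam_eq x u v z hz2]
  exact hz2 w

theorem fderiv_form (g : RMetric (Fin m → ℝ)) (x u v w : Fin (m + k) → ℝ) :
    fderiv ℝ (fun y => (prodM k g).form y v w) x u =
      fderiv ℝ (fun y => g.form y (pr k v) (pr k w)) (pr k x) (pr k u) := by
  have hd : DifferentiableAt ℝ (fun y => g.form y (pr k v) (pr k w)) (pr k x) :=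
    (g.smooth' _ _).contDiffAt.differentiableAt (by norm_num)
  have h1 := (hd.hasFDerivAt.comp x (pr k).hasFDerivAt).add_const
    (∑ j, qr (m := m) k v j * qr (m := m) k w j)
  have e : (fun y => (prodM k g).form y v w) = fun y =>
      ((fun y => g.form y (pr k v) (pr k w)) ∘ (pr k)) y +
        ∑ j, qr (m := m) k v j * qr (m := m) k w j := rfl
  rw [e, h1.fderiv]
  rfl

theorem Gam_prod (g : RMetric (Fin m → ℝ)) (x u v : Fin (m + k) → ℝ) :
    (prodM k g).Gam x u v = il k (g.Gam (pr k x) (pr k u) (pr k v)) := by
  apply RMetric.Gam_eq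
  intro w
  rw [fderiv_form, fderiv_form, fderiv_form, ← koszul, prodM_form]
  simp

theorem fderiv_sandwich (f : (Fin m → ℝ) → (Fin m → ℝ)) (x u : Fin (m + k) → ℝ) :
    fderiv ℝ (fun y => il k (f (pr k y))) x u = il k (fderiv ℝ f (pr k x) (pr k u)) := by
  by_cases hf : DifferentiableAt ℝ f (pr k x)
  · have h := (il k).hasFDerivAt.comp x (hf.hasFDerivAt.comp x (pr k).hasFDerivAt)
    have e : (fun y => il k (f (pr k y))) = (il k) ∘ (f ∘ (pr k)) := rfl
    rw [e, h.fderiv]
    rfl
  · have h2 : ¬ DifferentiableAt ℝ (fun y => il k (f (pr k y))) x := by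
      intro h
      apply hf
      have h1 : DifferentiableAt ℝ (fun z => x + il k (z - pr k x)) (pr k x) := by fun_prop
      have h3 : DifferentiableAt ℝ (fun y => il k (f (pr k y)))
          ((fun z => x + il k (z - pr k x)) (pr k x)) := by simpa using h
      have h4 := (pr k).differentiableAt.comp (pr k x) (h3.comp (pr k x) h1)
      refine h4.congr_of_eventuallyEq (Filter.Eventually.of_forall fun z => ?_)
      simp
    rw [fderiv_zero_of_not_differentiableAt hf, fderiv_zero_of_not_differentiableAt h2]
    simp

theorem curv_prod (g : RMetric (Fin m → ℝ)) (x u v w : Fin (m + k) → ℝ) :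
    (prodM k g).curv x u v w = il k (g.curv (pr k x) (pr k u) (pr k v) (pr k w)) := by
  unfold RMetric.curv
  have e : ∀ a b : Fin (m + k) → ℝ, (fun y => (prodM k g).Gam y a b) =
      fun y => il k ((fun z => g.Gam z (pr k a) (pr k b)) (pr k y)) := by
    intro a b
    funext y
    exact Gam_prod k g y a b
  have e2 : ∀ a b c : Fin (m + k) → ℝ, fderiv ℝ (fun y => (prodM k g).Gam y a b) x c =
      il k (fderiv ℝ (fun z => g.Gam z (pr k a) (pr k b)) (pr k x) (pr k c)) := by
    intro a b c
    rw [e]
    exact fderiv_sandwich k (fun z => g.Gam z (pr k a) (pr k b)) x c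
  rw [e2, e2]
  simp only [Gam_prod, pr_il, map_add, map_sub]

theorem Ric_prod (g : RMetric (Fin m → ℝ)) (x u v : Fin (m + k) → ℝ) :
    Ric (prodM k g) x u v = Ric g (pr k x) (pr k u) (pr k v) := by
  unfold Ric
  rw [Fin.sum_univ_add]
  have h1 : ∀ j : Fin k, (prodM k g).curv x (Pi.single (Fin.natAdd m j) 1) u v (Fin.natAdd m j)
      = 0 := by
    intro j
    rw [curv_prod]
    simp
  have h2 : ∀ i : Fin m, (prodM k g).curv x (Pi.single (Fin.castAdd k i) 1) u v (Fin.castAdd k i)
      = g.curv (pr k x) (Pi.single i 1) (pr k u) (pr k v) i := by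
    intro i
    rw [curv_prod]
    have e : pr k (Pi.single (Fin.castAdd k i) (1 : ℝ)) = (Pi.single i (1 : ℝ) : Fin m → ℝ) := by
      funext j
      simp only [pr_apply, Pi.single_apply, Fin.castAdd_inj]
    rw [e]
    simp
  simp only [h1, h2, Finset.sum_const_zero, add_zero]

end Pool.Agent.Y469.BL
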